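import Pool.Agent.Helper13.R6.SheetB

set_option autoImplicit false

namespace Pool.Helper13.R6

open Pool.Helper17.R5 (V3 TF tfa tfb tfh tfk tfd tfe ev pol disc lin det3 Rep bq)

/-- a set all of whose finite subsets have at most `B` elements -/
lemma ct6_finite_of_bdd {α : Type} (s : Set α) (B : ℝ)
    (h : ∀ F : Finset α, (∀ x ∈ F, x ∈ s) → (F.card : ℝ) ≤ B) : s.Finite ∧ (s.ncard : ℝ) ≤ B := by
  have hfin : s.Finite := by
    by_contra hinf
    obtain ⟨F, hF, hc⟩ := Set.Infinite.exists_subset_card_eq hinf (⌊B⌋₊ + 1)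
    have h1 := h F (fun x hx => hF hx)
    rw [hc] at h1
    have h2 := Nat.lt_floor_add_one B
    push_cast at h1
    linarith
  refine ⟨hfin, ?_⟩
  have h1 := h hfin.toFinset (fun x hx => hfin.mem_toFinset.mp hx)
  rwa [← Set.ncard_eq_toFinset_card s hfin] at h1

/-- the number of dyadic classes -/
lemma ct6_log (K : ℤ) (hK : 0 < K) (δ : ℝ) (hδ : 0 < δ) (n : ℕ) (hn : 1 ≤ n) :
    ((Nat.log 4 (K * (n : ℤ) ^ 2).toNat : ℕ) : ℝ) + 1 ≤
      (1 / δ + 1) * (K : ℝ) ^ δ * (n : ℝ) ^ (2 * δ) := by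
  have hn' : (1 : ℤ) ≤ (n : ℤ) := by exact_mod_cast hn
  have hKn : (1 : ℤ) ≤ K * (n : ℤ) ^ 2 := by nlinarith [sq_nonneg (n : ℤ)]
  set x : ℕ := (K * (n : ℤ) ^ 2).toNat with hx
  have hxc : ((x : ℕ) : ℤ) = K * (n : ℤ) ^ 2 := Int.toNat_of_nonneg (by omega)
  have hx1 : 1 ≤ x := by omega
  have hxR : (x : ℝ) = (K : ℝ) * (n : ℝ) ^ 2 := by
    have := congrArg (fun z : ℤ => (z : ℝ)) hxc
    push_cast at this
    exact this
  have hx1R : (1 : ℝ) ≤ (x : ℝ) := by exact_mod_cast hx1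
  have h1 : ((Nat.log 4 x : ℕ) : ℝ) ≤ Real.log x := by
    have h2 : (4 : ℕ) ^ Nat.log 4 x ≤ x := Nat.pow_log_le_self 4 (by omega)
    have h3 : ((4 : ℝ)) ^ Nat.log 4 x ≤ x := by exact_mod_cast h2
    have h4 := Real.log_le_log (by positivity) h3
    rw [Real.log_pow] at h4
    have h5 : (1 : ℝ) ≤ Real.log 4 := by
      rw [Real.le_log_iff_exp_le (by norm_num)]
      have := Real.exp_one_lt_d9
      linarith
    have h6 : (0 : ℝ) ≤ ((Nat.log 4 x : ℕ) : ℝ) := Nat.cast_nonneg _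
    nlinarith
  have h2 : Real.log x ≤ (x : ℝ) ^ δ / δ := Real.log_le_rpow_div (by positivity) hδ
  have h3 : (1 : ℝ) ≤ (x : ℝ) ^ δ := Real.one_le_rpow hx1R hδ.le
  have hKR : (0 : ℝ) ≤ (K : ℝ) := by exact_mod_cast hK.le
  have hnR : (0 : ℝ) ≤ (n : ℝ) := Nat.cast_nonneg _
  have h4 : (x : ℝ) ^ δ = (K : ℝ) ^ δ * (n : ℝ) ^ (2 * δ) := by
    rw [hxR, Real.mul_rpow hKR (by positivity), ← Real.rpow_natCast, ← Real.rpow_mul hnR]
    norm_num
  have h5 : (1 / δ + 1) * (K : ℝ) ^ δ * (n : ℝ) ^ (2 * δ) = (x : ℝ) ^ δ / δ + (x : ℝ) ^ δ := by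
    rw [mul_assoc, ← h4]; ring
  rw [h5]
  linarith

theorem st_CT6 (hCX : ST_CX) (hFB : ST_FB6) : ST_CT6 := by
  intro va vb vu hdet hca hcb K G ε hε
  classical
  obtain ⟨C, hC, hCX'⟩ := hCX (cf vu va) (cf vu vb) hca hcb K G (ε / 2) (by positivity)
  by_cases hK : 0 < K
  swap
  · -- no class
    refine ⟨1, one_pos, fun n hn => ?_⟩
    have hemp : {N : TF | Wit6 K G n va vb vu N} = ∅ := by
      ext N
      simp only [Set.mem_setOf_eq, Set.mem_empty_iff_false, iff_false]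
      rintro ⟨t, ea, eb, eu, -, -, -, -, -, h, -⟩
      push Not at hK
      have h1 : (0 : ℤ) < 4 ^ (eu 2) := by positivity
      have h2 : K * (n : ℤ) ^ 2 ≤ 0 := mul_nonpos_of_nonpos_of_nonneg hK (sq_nonneg _)
      omega
    rw [hemp]
    refine ⟨Set.finite_empty, ?_⟩
    simp only [Set.ncard_empty, Nat.cast_zero]
    positivity
  set δ : ℝ := ε / 20 with hδ
  have hδ0 : 0 < δ := by positivity
  set E : ℝ := (1 / δ + 1) * (K : ℝ) ^ δ with hE
  have hKR : (0 : ℝ) < (K : ℝ) := by exact_mod_cast hK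
  have hE0 : 0 < E := by positivity
  refine ⟨E ^ 5 * C, by positivity, fun n hn => ?_⟩
  apply ct6_finite_of_bdd
  intro F hF
  have hnR : (1 : ℝ) ≤ (n : ℝ) := by exact_mod_cast hn
  set M : ℕ := Nat.log 4 (K * (n : ℤ) ^ 2).toNat with hM
  have hn' : (1 : ℤ) ≤ (n : ℤ) := by exact_mod_cast hn
  have hKn : (1 : ℤ) ≤ K * (n : ℤ) ^ 2 := by nlinarith [sq_nonneg (n : ℤ)]
  -- choose witnesses
  have hw : ∀ N : TF, ∃ c : ℕ × ℕ × (Fin 3 → ℕ), ∃ t : ℕ × ℤ × P6 × P6, N ∈ F →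
      (Enc vu N t ∧ c.2.2 0 ≤ c.2.2 1 ∧ c.2.2 1 ≤ c.2.2 2 ∧ c.1 ≤ c.2.2 0 ∧ c.2.1 ≤ c.2.2 0 ∧
        (4 : ℤ) ^ (c.2.2 2) ≤ K * (n : ℤ) ^ 2 ∧ TP (cf vu va) (cf vu vb) K G n c.1 c.2.1 c.2.2 t) := by
    intro N
    by_cases hN : N ∈ F
    · obtain ⟨t, ea, eb, eu, h⟩ := hF N hN
      exact ⟨(ea, eb, eu), t, fun _ => h⟩
    · exact ⟨(0, 0, fun _ => 0), (0, 0, (fun _ => 0, fun _ => 0), (fun _ => 0, fun _ => 0)),
        fun h => absurd h hN⟩
  choose c t hct using hw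
  set I : Finset (ℕ × ℕ × (Fin 3 → ℕ)) :=
    (Finset.range (M + 1)) ×ˢ ((Finset.range (M + 1)) ×ˢ
      Fintype.piFinset (fun _ : Fin 3 => Finset.range (M + 1))) with hI
  have hcI : ∀ N ∈ F, c N ∈ I := by
    intro N hN
    obtain ⟨-, h01, h12, ha, hb, h4, -⟩ := hct N hN
    have h5 : (c N).2.2 2 ≤ M := by
      rw [hM]
      refine Nat.le_log_of_pow_le (by norm_num) ?_
      have h6 : ((4 ^ ((c N).2.2 2) : ℕ) : ℤ) ≤ K * (n : ℤ) ^ 2 := by push_cast; exact h4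
      omega
    simp only [hI, Finset.mem_product, Finset.mem_range, Fintype.mem_piFinset]
    refine ⟨by omega, by omega, ?_⟩
    intro j
    fin_cases j
    · show (c N).2.2 0 < M + 1
      omega
    · show (c N).2.2 1 < M + 1
      omega
    · show (c N).2.2 2 < M + 1
      omega
  have hfib : ∀ i ∈ I, ((F.filter (fun N => c N = i)).card : ℝ) ≤ C * (n : ℝ) ^ (4 + ε / 2) := by
    intro i _
    rcases (F.filter (fun N => c N = i)).eq_empty_or_nonempty with he | ⟨N₀, hN₀⟩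
    · rw [he]; simp only [Finset.card_empty, Nat.cast_zero]; positivity
    rw [Finset.mem_filter] at hN₀
    obtain ⟨-, h01, h12, ha, hb, h4, -⟩ := hct N₀ hN₀.1
    rw [hN₀.2] at h01 h12 ha hb h4
    have hinj : Set.InjOn t ((F.filter (fun N => c N = i) : Finset TF) : Set TF) := by
      intro N hN N' hN' hh
      have hN1 := (Finset.mem_filter.mp (Finset.mem_coe.mp hN)).1
      have hN1' := (Finset.mem_filter.mp (Finset.mem_coe.mp hN')).1
      obtain ⟨e1, -, -, -, -, -, tp1⟩ := hct N hN1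
      obtain ⟨e2, -, -, -, -, -, -⟩ := hct N' hN1'
      rw [← hh] at e2
      exact hFB vu hdet N N' (t N) tp1.D0 e1 e2
    rw [← Finset.card_image_of_injOn hinj]
    refine hCX' n i.1 i.2.1 i.2.2 hn h01 h12 ha hb h4 _ ?_
    intro u hu
    rw [Finset.mem_image] at hu
    obtain ⟨N, hN, rfl⟩ := hu
    rw [Finset.mem_filter] at hN
    obtain ⟨-, -, -, -, -, -, tp⟩ := hct N hN.1
    rw [hN.2] at tp
    exact tp
  have hsum : (F.card : ℝ) ≤ ∑ i ∈ I, ((F.filter (fun N => c N = i)).card : ℝ) := by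
    rw [Finset.card_eq_sum_card_fiberwise hcI]
    push_cast
    exact le_rfl
  have hIc : (I.card : ℝ) = ((M : ℝ) + 1) ^ 5 := by
    simp only [hI, Finset.card_product, Fintype.card_piFinset, Finset.card_range, Finset.prod_const,
      Finset.card_univ, Fintype.card_fin]
    push_cast
    ring
  have hM5 : ((M : ℝ) + 1) ^ 5 ≤ E ^ 5 * (n : ℝ) ^ (ε / 2) := by
    have h1 := ct6_log K hK δ hδ0 n hn
    have h2 : (0 : ℝ) ≤ (M : ℝ) + 1 := by positivity
    have h3 := pow_le_pow_left₀ h2 h1 5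
    rw [mul_pow] at h3
    have h4 : ((n : ℝ) ^ (2 * δ)) ^ 5 = (n : ℝ) ^ (ε / 2) := by
      rw [← Real.rpow_natCast, ← Real.rpow_mul (by positivity)]
      congr 1
      rw [hδ]; push_cast; ring
    rw [h4] at h3
    exact h3
  calc (F.card : ℝ) ≤ ∑ i ∈ I, ((F.filter (fun N => c N = i)).card : ℝ) := hsum
    _ ≤ ∑ _i ∈ I, C * (n : ℝ) ^ (4 + ε / 2) := Finset.sum_le_sum hfib
    _ = ((M : ℝ) + 1) ^ 5 * (C * (n : ℝ) ^ (4 + ε / 2)) := by
        rw [Finset.sum_const, nsmul_eq_mul, hIc]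
    _ ≤ (E ^ 5 * (n : ℝ) ^ (ε / 2)) * (C * (n : ℝ) ^ (4 + ε / 2)) :=
        mul_le_mul_of_nonneg_right hM5 (by positivity)
    _ = E ^ 5 * C * ((n : ℝ) ^ (ε / 2) * (n : ℝ) ^ (4 + ε / 2)) := by ring
    _ = E ^ 5 * C * (n : ℝ) ^ (4 + ε) := by
        rw [← Real.rpow_add (by linarith)]
        congr 2
        ring

theorem st_EX6 (hW : ST_W6) (hCT : ST_CT6) : ST_EX6 := by
  intro vs v7 hnodes C G ε hε
  classical
  obtain ⟨K, hK⟩ := hW vs v7 hnodes C G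
  have hd : ∀ i j k : Fin 6, i ≠ j → i ≠ k → j ≠ k → det3 (vs i) (vs j) (vs k) ≠ 0 := hnodes.2
  have key : ∀ s : Equiv.Perm (Fin 6), ∃ D : ℝ, 0 < D ∧ ∀ n : ℕ, 1 ≤ n →
      {N : TF | Wit6 K G n (vs (s 0)) (vs (s 1)) ![vs (s 3), vs (s 4), vs (s 5)] N}.Finite ∧
      ({N : TF | Wit6 K G n (vs (s 0)) (vs (s 1)) ![vs (s 3), vs (s 4), vs (s 5)] N}.ncard : ℝ) ≤
        D * (n : ℝ) ^ (4 + ε) := by
    intro s
    have ne : ∀ a b : Fin 6, a ≠ b → s a ≠ s b := fun a b h hh => h (s.injective hh)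
    refine hCT (vs (s 0)) (vs (s 1)) ![vs (s 3), vs (s 4), vs (s 5)] ?_ ?_ ?_ K G ε hε
    · exact hd _ _ _ (ne _ _ (by decide)) (ne _ _ (by decide)) (ne _ _ (by decide))
    · intro u
      fin_cases u
      · exact hd _ _ _ (ne _ _ (by decide)) (ne _ _ (by decide)) (ne _ _ (by decide))
      · exact hd _ _ _ (ne _ _ (by decide)) (ne _ _ (by decide)) (ne _ _ (by decide))
      · exact hd _ _ _ (ne _ _ (by decide)) (ne _ _ (by decide)) (ne _ _ (by decide))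
    · intro u
      fin_cases u
      · exact hd _ _ _ (ne _ _ (by decide)) (ne _ _ (by decide)) (ne _ _ (by decide))
      · exact hd _ _ _ (ne _ _ (by decide)) (ne _ _ (by decide)) (ne _ _ (by decide))
      · exact hd _ _ _ (ne _ _ (by decide)) (ne _ _ (by decide)) (ne _ _ (by decide))
  choose D hD hDn using key
  refine ⟨∑ s, D s, Finset.sum_pos (fun s _ => hD s) ⟨1, Finset.mem_univ _⟩, fun n hn => ?_⟩
  apply ct6_finite_of_bdd
  intro F hF
  have hw : ∀ N : TF, ∃ s : Equiv.Perm (Fin 6), N ∈ F →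
      Wit6 K G n (vs (s 0)) (vs (s 1)) ![vs (s 3), vs (s 4), vs (s 5)] N := by
    intro N
    by_cases hN : N ∈ F
    · obtain ⟨s, hs⟩ := hK n hn N (hF N hN)
      exact ⟨s, fun _ => hs⟩
    · exact ⟨1, fun h => absurd h hN⟩
  choose s hs using hw
  have hsum : (F.card : ℝ) ≤ ∑ i : Equiv.Perm (Fin 6), ((F.filter (fun N => s N = i)).card : ℝ) := by
    rw [Finset.card_eq_sum_card_fiberwise (t := Finset.univ) (f := s) (fun N _ => Finset.mem_univ _)]
    push_cast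
    exact le_rfl
  refine hsum.trans ?_
  rw [Finset.sum_mul]
  refine Finset.sum_le_sum (fun i _ => ?_)
  obtain ⟨hfin, hcard⟩ := hDn i n hn
  refine le_trans ?_ hcard
  have h1 : ((F.filter (fun N => s N = i) : Finset TF) : Set TF) ⊆
      {N : TF | Wit6 K G n (vs (i 0)) (vs (i 1)) ![vs (i 3), vs (i 4), vs (i 5)] N} := by
    intro N hN
    have hN' := Finset.mem_filter.mp (Finset.mem_coe.mp hN)
    have := hs N hN'.1
    rw [hN'.2] at this
    exact this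
  have h2 := Set.ncard_le_ncard h1 hfin
  rw [Set.ncard_coe_finset] at h2
  exact_mod_cast h2

end Pool.Helper13.R6
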