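import Pool.Agent.Helper13.R6.SheetA

set_option autoImplicit false

namespace Pool.Helper13.R6

/-- integers of size at most `B` in one residue class modulo `N` -/
lemma xi_prog (A : Finset ℤ) (N : ℤ) (hN : 0 < N) (B : ℝ) (hB : 0 ≤ B)
    (h1 : ∀ y ∈ A, |(y : ℝ)| ≤ B) (h2 : ∀ y ∈ A, ∀ y' ∈ A, N ∣ y - y') :
    (A.card : ℝ) ≤ 1 + 2 * B / N := by
  have hNR : (0 : ℝ) < (N : ℝ) := by exact_mod_cast hN
  rcases A.eq_empty_or_nonempty with rfl | hne
  · simp only [Finset.card_empty, Nat.cast_zero]; positivity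
  set m := A.min' hne with hm
  have hmA : m ∈ A := Finset.min'_mem A hne
  set K : ℤ := ⌊2 * B / N⌋ with hK
  have hK0 : 0 ≤ K := Int.floor_nonneg.mpr (by positivity)
  have hcard : A.card ≤ (Finset.Icc (0 : ℤ) K).card := by
    refine Finset.card_le_card_of_injOn (fun y => (y - m) / N) ?_ ?_
    · intro y hy
      have hy' : y ∈ A := hy
      obtain ⟨k, hk⟩ := h2 y hy' m hmA
      have hle : m ≤ y := Finset.min'_le A y hy'
      have e : (y - m) / N = k := by rw [hk]; exact Int.mul_ediv_cancel_left k hN.ne'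
      simp only [Finset.coe_Icc, Set.mem_Icc, e]
      constructor
      · by_contra hc
        push Not at hc
        nlinarith
      · rw [hK, Int.le_floor, le_div_iff₀ hNR]
        have hh : (k : ℝ) * N = (y : ℝ) - m := by
          have := congrArg (fun z : ℤ => (z : ℝ)) hk
          push_cast at this
          linarith
        have a1 := abs_le.mp (h1 y hy')
        have a2 := abs_le.mp (h1 m hmA)
        linarith [a1.2, a2.1]
    · intro y hy y' hy' hh
      obtain ⟨k, hk⟩ := h2 y hy m hmA
      obtain ⟨k', hk'⟩ := h2 y' hy' m hmA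
      simp only at hh
      rw [hk, hk', Int.mul_ediv_cancel_left k hN.ne', Int.mul_ediv_cancel_left k' hN.ne'] at hh
      rw [hh] at hk
      linarith
  have hK1 : ((Finset.Icc (0 : ℤ) K).card : ℝ) = K + 1 := by
    rw [Int.card_Icc]
    have : ((K + 1 - 0).toNat : ℤ) = K + 1 := by
      rw [Int.toNat_of_nonneg (by omega)]; ring
    have h3 : (((K + 1 - 0).toNat : ℤ) : ℝ) = ((K + 1 : ℤ) : ℝ) := by rw [this]
    push_cast at h3
    simpa using h3
  have h4 : (A.card : ℝ) ≤ ((Finset.Icc (0 : ℤ) K).card : ℝ) := by exact_mod_cast hcard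
  have h5 : (K : ℝ) ≤ 2 * B / N := Int.floor_le _
  rw [hK1] at h4
  linarith

lemma xi_nv_exists (d : Fin 4 → ℝ) (s : V4) : ∃ v : Fin 4, nv d s = d v * |(s v : ℝ)| := by
  obtain ⟨v, -, hv⟩ := Finset.exists_mem_eq_sup' (Finset.univ_nonempty (α := Fin 4))
    (fun i => d i * |(s i : ℝ)|)
  exact ⟨v, hv⟩

lemma xi_le_nv (d : Fin 4 → ℝ) (s : V4) (i : Fin 4) : d i * |(s i : ℝ)| ≤ nv d s :=
  Finset.le_sup' (fun i => d i * |(s i : ℝ)|) (Finset.mem_univ i)

lemma xi_le_nx (d : Fin 4 → ℝ) (x : A4) (i j : Fin 4) : d i * d j * |(x i j : ℝ)| ≤ nx d x :=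
  Finset.le_sup' (fun p : Fin 4 × Fin 4 => d p.1 * d p.2 * |(x p.1 p.2 : ℝ)|)
    (Finset.mem_univ (i, j))

theorem st_XI (hKL1 : ST_KL1) : ST_XI := by
  refine ⟨64, by norm_num, ?_⟩
  intro d X s hd hprod hX hs hsX S hS
  classical
  obtain ⟨v, hv⟩ := xi_nv_exists d s
  -- `s ≠ 0`, so `s v ≠ 0`
  have hnv : 0 < nv d s := by
    by_contra hc
    push Not at hc
    have h0 : ∀ i, (0 : ℤ) ∣ s i := by
      intro i
      have h1 := xi_le_nv d s i
      have h2 : 0 ≤ d i * |(s i : ℝ)| := mul_nonneg (hd i).le (abs_nonneg _)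
      have h3 : d i * |(s i : ℝ)| = 0 := le_antisymm (h1.trans hc) h2
      have h4 : |(s i : ℝ)| = 0 := by
        rcases mul_eq_zero.mp h3 with h | h
        · exact absurd h (hd i).ne'
        · exact h
      have h5 : s i = 0 := by exact_mod_cast abs_eq_zero.mp h4
      rw [h5]
    exact not_isUnit_zero (hs 0 h0)
  have hsv : s v ≠ 0 := by
    intro h
    rw [hv, h] at hnv
    simp at hnv
  set N : ℤ := |s v| with hN
  have hNpos : 0 < N := abs_pos.mpr hsv
  have hNR : (N : ℝ) = |(s v : ℝ)| := by rw [hN]; push_cast; rfl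
  -- the sets
  set B : Fin 4 → ℝ := fun j => X / (d v * d j) with hB
  have hB0 : ∀ j, 0 ≤ B j := fun j => by
    have := hd v; have := hd j; simp only [hB]; positivity
  set A : ℕ → Fin 4 → Finset ℤ := fun c j =>
    if j = v then {0} else
      (Finset.Icc (-⌊B j⌋) ⌊B j⌋).filter (fun y => N ∣ y + s j * (c : ℤ)) with hA
  have hAcard : ∀ c j, j ≠ v → ((A c j).card : ℝ) ≤ 4 * X / (nv d s * d j) := by
    intro c j hj
    have hAj : A c j = (Finset.Icc (-⌊B j⌋) ⌊B j⌋).filter (fun y => N ∣ y + s j * (c : ℤ)) := by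
      simp only [hA, if_neg hj]
    have h1 : ((A c j).card : ℝ) ≤ 1 + 2 * B j / N := by
      refine xi_prog (A c j) N hNpos (B j) (hB0 j) ?_ ?_
      · intro y hy
        rw [hAj, Finset.mem_filter, Finset.mem_Icc] at hy
        rw [abs_le]
        have hf : (⌊B j⌋ : ℝ) ≤ B j := Int.floor_le _
        have a1 : (-(⌊B j⌋ : ℝ)) ≤ y := by exact_mod_cast hy.1.1
        have a2 : (y : ℝ) ≤ ⌊B j⌋ := by exact_mod_cast hy.1.2
        constructor <;> linarith
      · intro y hy y' hy'
        rw [hAj, Finset.mem_filter] at hy hy'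
        have := dvd_sub hy.2 hy'.2
        have e : y + s j * (c : ℤ) - (y' + s j * (c : ℤ)) = y - y' := by ring
        rwa [e] at this
    have hdv := hd v
    have hdj := hd j
    have hsvR : (0 : ℝ) < |(s v : ℝ)| := by rw [← hNR]; exact_mod_cast hNpos
    have h2 : 2 * B j / N = 2 * X / (nv d s * d j) := by
      simp only [hB]
      rw [hNR, hv]
      field_simp
    have h3 : (1 : ℝ) ≤ 2 * X / (nv d s * d j) := by
      rw [le_div_iff₀ (mul_pos hnv hdj)]
      linarith [hsX j]
    rw [h2] at h1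
    have h4 : 4 * X / (nv d s * d j) = 2 * X / (nv d s * d j) + 2 * X / (nv d s * d j) := by ring
    rw [h4]; linarith
  -- injectivity
  have hdet : ∀ x ∈ S, ∀ i j, x i j * s v = x v j * s i - x v i * s j := by
    intro x hx i j
    have h := (hS x hx).2.1 v i j
    unfold w3 at h
    linarith
  have hinj : Set.InjOn (fun x : A4 => x v) (S : Set A4) := by
    intro x hx x' hx' hh
    simp only at hh
    funext i j
    have h1 := hdet x hx i j
    have h2 := hdet x' hx' i j
    rw [hh] at h1
    exact mul_right_cancel₀ hsv (h1.trans h2.symm)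
  -- the image
  have hsub : S.image (fun x : A4 => x v) ⊆
      (Finset.range N.toNat).biUnion (fun c => Fintype.piFinset (A c)) := by
    intro y hy
    rw [Finset.mem_image] at hy
    obtain ⟨x, hx, rfl⟩ := hy
    obtain ⟨hplu, hin, hnx⟩ := hS x hx
    obtain ⟨t, ht⟩ := hKL1 x s hplu hs hin
    rw [Finset.mem_biUnion]
    refine ⟨(t v % N).toNat, ?_, ?_⟩
    · rw [Finset.mem_range]
      have h1 := Int.emod_nonneg (t v) hNpos.ne'
      have h2 := Int.emod_lt_of_pos (t v) hNpos
      omega
    · rw [Fintype.mem_piFinset]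
      intro j
      by_cases hj : j = v
      · subst hj
        simp only [hA, if_true]
        have h3 := hplu.1 j j
        rw [Finset.mem_singleton]
        omega
      · simp only [hA, if_neg hj]
        rw [Finset.mem_filter, Finset.mem_Icc]
        have hc : (((t v % N).toNat : ℕ) : ℤ) = t v % N :=
          Int.toNat_of_nonneg (Int.emod_nonneg (t v) hNpos.ne')
        refine ⟨?_, ?_⟩
        · have h1 := (xi_le_nx d x v j).trans hnx
          have h2 : |(x v j : ℝ)| ≤ B j := by
            simp only [hB]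
            rw [le_div_iff₀ (mul_pos (hd v) (hd j))]
            linarith
          have h3 := abs_le.mp h2
          have h4 : x v j ≤ ⌊B j⌋ := Int.le_floor.mpr h3.2
          have h5 : -x v j ≤ ⌊B j⌋ := Int.le_floor.mpr (by push_cast; linarith [h3.1])
          constructor <;> linarith
        · rw [hc]
          have h1 : x v j = s v * t j - s j * t v := by
            rw [ht]; rfl
          have h2 : t v % N = t v - N * (t v / N) := by
            have := Int.emod_add_mul_ediv (t v) N; linarith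
          rw [h1, h2]
          have h3 : N ∣ s v := (abs_dvd (s v) (s v)).mpr dvd_rfl
          have e : s v * t j - s j * t v + s j * (t v - N * (t v / N)) =
              s v * t j - N * (s j * (t v / N)) := by ring
          rw [e]
          exact dvd_sub (h3.mul_right _) (dvd_mul_right _ _)
  have hcardA : ∀ c, ((Fintype.piFinset (A c)).card : ℝ) ≤ 64 * X ^ 3 * d v / nv d s ^ 3 := by
    intro c
    rw [Fintype.card_piFinset, Nat.cast_prod]
    have hle : ∏ j, ((A c j).card : ℝ) ≤
        ∏ j, (if j = v then (1 : ℝ) else 4 * X / (nv d s * d j)) := by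
      refine Finset.prod_le_prod (fun j _ => Nat.cast_nonneg _) ?_
      intro j _
      by_cases hj : j = v
      · subst hj
        simp [hA]
      · rw [if_neg hj]
        exact hAcard c j hj
    refine hle.trans (le_of_eq ?_)
    have hd0 := (hd 0).ne'
    have hd1 := (hd 1).ne'
    have hd2 := (hd 2).ne'
    have hd3 := (hd 3).ne'
    have hn := hnv.ne'
    have key : ∀ a b c e : ℝ, a ≠ 0 → b ≠ 0 → c ≠ 0 → e * (a * b * c) = 1 →
        4 * X / (nv d s * a) * (4 * X / (nv d s * b)) * (4 * X / (nv d s * c)) =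
          64 * X ^ 3 * e / nv d s ^ 3 := by
      intro a b c e ha hb hc he
      have he' : e = 1 / (a * b * c) := by field_simp; linarith
      rw [he']
      field_simp
      ring
    rw [Fin.prod_univ_four]
    have hv4 : v = 0 ∨ v = 1 ∨ v = 2 ∨ v = 3 := by
      fin_cases v <;> simp
    rcases hv4 with h | h | h | h
    · rw [h]
      simp only [if_true, show (1 : Fin 4) ≠ 0 by decide, show (2 : Fin 4) ≠ 0 by decide,
        show (3 : Fin 4) ≠ 0 by decide, if_false, one_mul]
      exact key _ _ _ _ hd1 hd2 hd3 (by linarith)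
    · rw [h]
      simp only [if_true, show (0 : Fin 4) ≠ 1 by decide, show (2 : Fin 4) ≠ 1 by decide,
        show (3 : Fin 4) ≠ 1 by decide, if_false, mul_one]
      exact key _ _ _ _ hd0 hd2 hd3 (by linarith)
    · rw [h]
      simp only [if_true, show (0 : Fin 4) ≠ 2 by decide, show (1 : Fin 4) ≠ 2 by decide,
        show (3 : Fin 4) ≠ 2 by decide, if_false, mul_one]
      exact key _ _ _ _ hd0 hd1 hd3 (by linarith)
    · rw [h]
      simp only [if_true, show (0 : Fin 4) ≠ 3 by decide, show (1 : Fin 4) ≠ 3 by decide,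
        show (2 : Fin 4) ≠ 3 by decide, if_false, mul_one]
      exact key _ _ _ _ hd0 hd1 hd2 (by linarith)
  have h1 : (S.card : ℝ) ≤ ∑ c ∈ Finset.range N.toNat, ((Fintype.piFinset (A c)).card : ℝ) := by
    rw [← Finset.card_image_of_injOn hinj]
    have h2 := (Finset.card_le_card hsub).trans Finset.card_biUnion_le
    exact_mod_cast h2
  refine h1.trans ((Finset.sum_le_sum (fun c _ => hcardA c)).trans (le_of_eq ?_))
  rw [Finset.sum_const, Finset.card_range, nsmul_eq_mul]
  have hNn : ((N.toNat : ℕ) : ℝ) = |(s v : ℝ)| := by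
    rw [← hNR]
    have : ((N.toNat : ℕ) : ℤ) = N := Int.toNat_of_nonneg hNpos.le
    exact_mod_cast congrArg (fun z : ℤ => (z : ℝ)) this
  rw [hNn]
  have hn := hnv.ne'
  have e : |(s v : ℝ)| * (64 * X ^ 3 * d v / nv d s ^ 3) =
      64 * X ^ 3 * (d v * |(s v : ℝ)|) / nv d s ^ 3 := by ring
  rw [e, ← hv]
  field_simp

end Pool.Helper13.R6
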